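import Mathlib
import Pool.Agent.TH461.FGK.TrCov
import Pool.Agent.N254.SP.Blocks

/-!
# Traces of `ℤ² ⋉ ℤ[1/6]`: almost periods and covering numbers along sparse sequences of scales
-/

set_option autoImplicit false

open MeasureTheory Filter Topology
open scoped ComplexOrder

namespace Pool.Agent.N317.TS

open Pool.Agent.TH654.FC Pool.Agent.W763.Tr Pool.Agent.TH461.FGK Pool.Agent.N254.SP

def SparseScales (v : ℕ → ℂ) : Prop :=
  ∃ κ : ℝ, 0 < κ ∧ ∃ N n : ℕ → ℕ, StrictMono N ∧ (∀ k, 1 ≤ n k ∧ n k ≤ 2 ^ N k) ∧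
    Summable (fun k : ℕ => (N (k + 1) : ℝ) ^ κ * (1 - (v (n k)).re))

def BlockScales (v : ℕ → ℂ) : Prop :=
  ∃ C s : ℝ, 1 ≤ C ∧ 0 < s ∧ ∀ᶠ N : ℕ in atTop, ∃ M : ℕ, N ≤ M ∧ (M : ℝ) ≤ (N : ℝ) ^ C ∧
    ∃ n : ℕ, 1 ≤ n ∧ n ≤ 2 ^ M ∧ 1 - (v n).re ≤ (M : ℝ) ^ (-s)

def BlockCovers (v : ℕ → ℂ) : Prop :=
  ∃ C D : ℝ, 1 ≤ C ∧ 0 < D ∧ ∃ s : ℕ → ℕ, StrictMono s ∧
    (∀ i : ℕ, (s i : ℝ) ≤ 2 ^ (C * ((i : ℝ) + 1) ^ D)) ∧
    ∀ ε₀ : ℝ, 0 < ε₀ → ε₀ ≤ 1 → ∃ ε : ℝ, ε₀ ^ C ≤ ε ∧ ε ≤ ε₀ ∧ ∃ m : ℕ, (m : ℝ) ≤ C * ε ^ (-D) ∧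
      ∃ c : ℕ → Fin m, ∀ i k : ℕ, k < i → c i = c k → 2 - 2 * (v (s i - s k)).re ≤ ε ^ 2

/-- polynomial covering numbers at polynomially many scales give almost periods -/
theorem block_of_covers {v : ℕ → ℂ} (h : BlockCovers v) : BlockScales v := by
  obtain ⟨C, D, hC, hD, s, hs, hs2, H⟩ := h
  have hC0 : 0 < C := by linarith
  set K : ℝ := C * (2 * C) ^ D + 1 with hK
  have hK1 : 1 ≤ K := by
    have : 0 ≤ C * (2 * C) ^ D := by positivity
    linarith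
  have hDD : 0 < D * D := by positivity
  refine ⟨C + 1, 1 / (D * D), by linarith, by positivity, ?_⟩
  filter_upwards [eventually_ge_atTop 1, tendsto_natCast_atTop_atTop.eventually_ge_atTop K]
    with N hN1 hNK
  have hNR : (1 : ℝ) ≤ N := by exact_mod_cast hN1
  have hN0 : (0 : ℝ) < N := by linarith
  set ε₀ : ℝ := (N : ℝ) ^ (-(1 / (D * D))) with hε₀
  have h0 : 0 < ε₀ := Real.rpow_pos_of_pos hN0 _
  have h1 : ε₀ ≤ 1 := Real.rpow_le_one_of_one_le_of_nonpos hNR (by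
    have : 0 < 1 / (D * D) := by positivity
    linarith)
  obtain ⟨ε, he1, he2, m, hm, c, hc⟩ := H ε₀ h0 h1
  have hε0 : 0 < ε := lt_of_lt_of_le (Real.rpow_pos_of_pos h0 _) he1
  have hε1 : ε ≤ 1 := he2.trans h1
  set Y : ℝ := ε ^ (-(D * D)) with hY
  have hY1 : 1 ≤ Y := Real.one_le_rpow_of_pos_of_le_one_of_nonpos hε0 hε1 (by linarith)
  have hYD : (ε ^ (-D)) ^ D = Y := by
    rw [← Real.rpow_mul hε0.le, hY]; congr 1; ring
  have hYN : (N : ℝ) ≤ Y := by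
    have e : (N : ℝ) = ε₀ ^ (-(D * D)) := by
      rw [hε₀, ← Real.rpow_mul hN0.le]
      have : -(1 / (D * D)) * -(D * D) = 1 := by field_simp
      rw [this, Real.rpow_one]
    rw [e]
    exact Real.rpow_le_rpow_of_nonpos hε0 he2 (by linarith)
  have hYC : Y ≤ (N : ℝ) ^ C := by
    have e : (N : ℝ) ^ C = (ε₀ ^ C) ^ (-(D * D)) := by
      rw [hε₀, ← Real.rpow_mul hN0.le, ← Real.rpow_mul hN0.le]
      congr 1
      field_simp
    rw [e]
    exact Real.rpow_le_rpow_of_nonpos (Real.rpow_pos_of_pos h0 _) he1 (by linarith)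
  set f : ℝ := C * (C * ε ^ (-D) + 1) ^ D with hf
  have hεD : 1 ≤ ε ^ (-D) := Real.one_le_rpow_of_pos_of_le_one_of_nonpos hε0 hε1 (by linarith)
  have hf1 : Y ≤ f := by
    rw [hf, ← hYD]
    have h2 : (ε ^ (-D)) ^ D ≤ (C * ε ^ (-D) + 1) ^ D :=
      Real.rpow_le_rpow (by positivity) (by nlinarith) hD.le
    have h3 : 0 ≤ (C * ε ^ (-D) + 1) ^ D := by positivity
    nlinarith
  have hf2 : f ≤ C * (2 * C) ^ D * Y := by
    rw [hf, ← hYD, mul_assoc, ← Real.mul_rpow (by positivity) (by positivity)]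
    apply mul_le_mul_of_nonneg_left _ hC0.le
    apply Real.rpow_le_rpow (by positivity) _ hD.le
    nlinarith
  set M : ℕ := ⌈f⌉₊ with hM
  have hf0 : 0 ≤ f := by linarith
  have hM1 : f ≤ M := Nat.le_ceil f
  have hM2 : (M : ℝ) ≤ K * Y := by
    have h2 : (M : ℝ) < f + 1 := Nat.ceil_lt_add_one hf0
    rw [hK, add_mul]
    linarith
  have hMpos : (0 : ℝ) < M := by linarith
  refine ⟨M, ?_, ?_, ?_⟩
  · have : (N : ℝ) ≤ M := by linarith
    exact_mod_cast this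
  · calc (M : ℝ) ≤ K * Y := hM2
      _ ≤ N * (N : ℝ) ^ C := mul_le_mul hNK hYC (by linarith) (by linarith)
      _ = (N : ℝ) ^ (C + 1) := by
          rw [Real.rpow_add hN0, Real.rpow_one]; ring
  · obtain ⟨a, b, hab, hcab⟩ : ∃ a b : Fin (m + 1), a ≠ b ∧ c a = c b :=
      Fintype.exists_ne_map_eq_of_card_lt (fun a : Fin (m + 1) => c a) (by simp)
    have key : ∀ i k : Fin (m + 1), (k : ℕ) < i → c i = c k → ∃ n : ℕ, 1 ≤ n ∧ n ≤ 2 ^ M ∧
        1 - (v n).re ≤ (M : ℝ) ^ (-(1 / (D * D))) := by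
      intro i k hki hcik
      refine ⟨s i - s k, ?_, ?_, ?_⟩
      · have := hs hki
        omega
      · have h3 : (s i : ℝ) ≤ 2 ^ (M : ℝ) := by
          refine (hs2 i).trans ?_
          apply Real.rpow_le_rpow_of_exponent_le (by norm_num)
          refine le_trans ?_ hM1
          rw [hf]
          apply mul_le_mul_of_nonneg_left _ hC0.le
          apply Real.rpow_le_rpow (by positivity) _ hD.le
          have h4 : ((i : ℕ) : ℝ) ≤ m := by exact_mod_cast (by omega : (i : ℕ) ≤ m)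
          linarith
        rw [Real.rpow_natCast] at h3
        have h4 : s i ≤ 2 ^ M := by exact_mod_cast h3
        omega
      · have h3 := hc i k hki hcik
        have h4 : 1 - (v (s i - s k)).re ≤ ε ^ 2 / 2 := by linarith
        refine h4.trans ?_
        have h5 : (K * Y) ^ (-(1 / (D * D))) ≤ (M : ℝ) ^ (-(1 / (D * D))) :=
          Real.rpow_le_rpow_of_nonpos hMpos hM2 (by
            have : 0 < 1 / (D * D) := by positivity
            linarith)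
        refine le_trans ?_ h5
        rw [Real.mul_rpow (by linarith) (by linarith), hY, ← Real.rpow_mul hε0.le]
        have e1 : -(D * D) * -(1 / (D * D)) = 1 := by field_simp
        rw [e1, Real.rpow_one]
        have h6 : ε₀ ≤ K ^ (-(1 / (D * D))) := by
          rw [hε₀]
          exact Real.rpow_le_rpow_of_nonpos (by linarith) hNK (by
            have : 0 < 1 / (D * D) := by positivity
            linarith)
        have h7 : ε ≤ K ^ (-(1 / (D * D))) := he2.trans h6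
        nlinarith
    rcases lt_or_gt_of_ne hab with h | h
    · exact key b a h hcab.symm
    · exact key a b h hcab

section

variable {G : Subgroup (Equiv.Perm ℚ)} {τ : ℤ → G} {φ : G → ℂ} {S6 : G} {μ : Measure UnitAddCircle}

lemma pow_ne (D : Data G τ φ S6 μ) {g : G} {r : ℚ} (hg : ∀ x, (g : Equiv.Perm ℚ) x = x + r)
    (hr0 : r ≠ 0) : ∃ m : ℤ, m ≠ 0 ∧ ∀ n : ℕ, φ (g ^ n) = φ (τ (m * n)) := by
  obtain ⟨m, k, hr⟩ := D.six hg
  refine ⟨m, ?_, fun n => ?_⟩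
  · rintro rfl
    apply hr0
    rw [hr]; simp
  have hpow : ∀ x, ((g ^ n : G) : Equiv.Perm ℚ) x = x + n * r := by
    induction n with
    | zero => intro x; simp
    | succ n ih =>
      intro x
      rw [pow_succ, Subgroup.coe_mul, Equiv.Perm.mul_apply, hg, ih]
      push_cast; ring
  refine phi_trans D.hτ D.hcl S6 D.hS6 (g ^ n) (m * n) k fun x => ?_
  rw [hpow, hr]
  push_cast; ring

lemma re_even (μ : Measure UnitAddCircle) (m : ℤ) :
    (∫ x, fourier (-m) x ∂μ).re = (∫ x, fourier m x ∂μ).re := by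
  have e : (∫ x, (fourier (-m) x : ℂ) ∂μ) = (starRingEnd ℂ) (∫ x, (fourier m x : ℂ) ∂μ) := by
    rw [← integral_conj]
    congr 1
    ext x
    rw [fourier_neg]
  rw [e, Complex.conj_re]

lemma tors_of (D : Data G τ φ S6 μ) {g : G} {r : ℚ} (hg : ∀ x, (g : Equiv.Perm ℚ) x = x + r)
    (hr0 : r ≠ 0) (h : SparseScales (fun n => φ (g ^ n)) ∨ BlockScales (fun n => φ (g ^ n)) ∨
      BlockCovers (fun n => φ (g ^ n))) : μ Tors = 1 := by
  have := D.prob
  obtain ⟨m, hm0, hm⟩ := pow_ne D hg hr0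
  set a : ℕ := m.natAbs with ha
  have ha1 : 1 ≤ a := by omega
  set ν : Measure UnitAddCircle := μ.map (fun x : UnitAddCircle => a • x) with hν
  have hmeas : Measurable (fun x : UnitAddCircle => a • x) := by fun_prop
  have hνp : IsProbabilityMeasure ν := Measure.isProbabilityMeasure_map hmeas.aemeasurable
  have hν2 := Pool.Agent.H261R2.FU.mp_nsmul D.mp2 a
  have hν3 := Pool.Agent.H261R2.FU.mp_nsmul D.mp3 a
  rw [← hν] at hν2 hν3
  have hval : ∀ n : ℕ, (∫ x, fourier (n : ℤ) x ∂ν).re = (φ (g ^ n)).re := by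
    intro n
    rw [hν, integral_map_nsmul, hm, ← D.hμ]
    rcases Int.natAbs_eq m with h | h
    · rw [← ha] at h
      rw [h]
      congr 2
      ext x
      congr 1
      ring
    · rw [← ha] at h
      rw [h, show (-(a : ℤ)) * (n : ℤ) = -((a : ℤ) * n) by ring, re_even]
      congr 2
      ext x
      congr 1
      ring
  have hT : ν Tors = 1 := by
    have hNC := fun κ (hκ : (0 : ℝ) < κ) => Pool.Agent.TH461.FGK.nc23 hκ
    have hb : BlockScales (fun n => φ (g ^ n)) → ν Tors = 1 := by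
      rintro ⟨C, s, hC, hs, H⟩
      refine blocks (p := 2) (q := 3) le_rfl (by norm_num) (κ₀ := 0) le_rfl hNC ν hν2 hν3 hC
        (by simpa using hs) ?_
      filter_upwards [H] with N hN
      obtain ⟨M, h1, h2, n, h3, h4, h5⟩ := hN
      refine ⟨M, h1, h2, n, h3, h4, ?_⟩
      rw [hval]
      exact h5
    rcases h with h | h | h
    · obtain ⟨κ, hκ, N, n, hN, hn, hs⟩ := h
      refine sparse (p := 2) (q := 3) le_rfl (by norm_num) (hNC κ hκ) ν hν2 hν3 N n hN hn ?_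
      simp only [hval]
      exact hs
    · exact hb h
    · exact hb (block_of_covers h)
  have h1 : ν Tors ≤ μ Tors := by
    rw [hν, Measure.map_apply hmeas tors_meas]
    apply measure_mono
    rintro x ⟨n, hn1, hn2⟩
    refine ⟨n * a, Nat.mul_pos (by omega) (by omega), ?_⟩
    rw [mul_smul]
    exact hn2
  rw [hT] at h1
  exact le_antisymm prob_le_one h1

lemma unif (D : Data G τ φ S6 μ) (hat : μ Tors = 1) {ε : ℝ} (hε : 0 < ε) :
    ∃ q : ℕ, 1 ≤ q ∧ ∀ h : G, (∃ r : ℚ, ∀ x, (h : Equiv.Perm ℚ) x = x + r) →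
      ‖φ (h ^ q) - 1‖ ≤ ε := by
  have := D.prob
  obtain ⟨M, hM1, hM⟩ := level μ hat (half_pos hε)
  refine ⟨M, hM1, ?_⟩
  rintro h ⟨r, hr⟩
  obtain ⟨m, hm⟩ := D.pow hr
  rw [hm, ← D.hμ]
  have := norm_sub_le_level μ M m
  linarith

end

/-- **The theorem.** -/
theorem main (s2 s3 t : Equiv.Perm ℚ) (hs2 : ∀ x : ℚ, s2 x = 2 * x) (hs3 : ∀ x : ℚ, s3 x = 3 * x)
    (ht : ∀ x : ℚ, t x = x + 1) (G : Subgroup (Equiv.Perm ℚ))
    (hG : G = Subgroup.closure {s2, s3, t}) (g : G) (r : ℚ) (hr0 : r ≠ 0)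
    (hg : ∀ x : ℚ, (g : Equiv.Perm ℚ) x = x + r) (φ : G → ℂ)
    (hφ : φ ∈ {ψ : G → ℂ | ψ 1 = 1 ∧ (∀ g h : G, ψ (h * g * h⁻¹) = ψ g) ∧
      ∀ (s : Finset G) (c : G → ℂ), 0 ≤ ∑ i ∈ s, ∑ j ∈ s, star (c j) * c i * ψ (j⁻¹ * i)}) :
    ((SparseScales (fun n => φ (g ^ n)) ∨ BlockScales (fun n => φ (g ^ n)) ∨
      BlockCovers (fun n => φ (g ^ n))) → ∀ ε : ℝ, 0 < ε → ∃ q : ℕ, 1 ≤ q ∧ ∀ h : G,
        (∃ r : ℚ, ∀ x, (h : Equiv.Perm ℚ) x = x + r) → ‖φ (h ^ q) - 1‖ ≤ ε) ∧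
    (φ ∈ Set.extremePoints ℝ {ψ : G → ℂ | ψ 1 = 1 ∧ (∀ g h : G, ψ (h * g * h⁻¹) = ψ g) ∧
      ∀ (s : Finset G) (c : G → ℂ), 0 ≤ ∑ i ∈ s, ∑ j ∈ s, star (c j) * c i * ψ (j⁻¹ * i)} →
    List.TFAE [
      FiniteDimensional ℂ (Submodule.span ℂ {F : G → ℂ | ∃ n : G,
        (∃ r : ℚ, ∀ x : ℚ, (n : Equiv.Perm ℚ) x = x + r) ∧ F = fun x => φ (n * x)}),
      SparseScales (fun n => φ (g ^ n)), BlockScales (fun n => φ (g ^ n)),
      BlockCovers (fun n => φ (g ^ n))]) := by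
  obtain ⟨h1, hcl, hpd⟩ := hφ
  obtain ⟨τ, S6, μ, D⟩ := data_of hs2 hs3 ht hG h1 hcl hpd
  have := D.prob
  refine ⟨fun h ε hε => unif D (tors_of D hg hr0 h) hε, fun hext => ?_⟩
  have key : (SparseScales (fun n => φ (g ^ n)) ∨ BlockScales (fun n => φ (g ^ n)) ∨
      BlockCovers (fun n => φ (g ^ n))) → FiniteDimensional ℂ (Submodule.span ℂ
      {F : G → ℂ | ∃ n : G,
        (∃ r : ℚ, ∀ x : ℚ, (n : Equiv.Perm ℚ) x = x + r) ∧ F = fun x => φ (n * x)}) := fun h =>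
    finite_dim D.hτ D.h1 D.hcl D.hpd S6 D.hS6 D.hform D.h2 D.h3 (D.kernel hext (tors_of D hg hr0 h))
  have back : FiniteDimensional ℂ (Submodule.span ℂ {F : G → ℂ | ∃ n : G,
        (∃ r : ℚ, ∀ x : ℚ, (n : Equiv.Perm ℚ) x = x + r) ∧ F = fun x => φ (n * x)}) →
      ∃ M : ℕ, 1 ≤ M ∧ ∀ j : ℕ, φ (g ^ (M * j)) = 1 := by
    intro h
    obtain ⟨M, hM1, hM⟩ := exists_kernel D.hτ D.hμ D.h2 h
    obtain ⟨m, hm⟩ := D.pow hg
    refine ⟨M, hM1, fun j => ?_⟩
    rw [hm, show m * ((M * j : ℕ) : ℤ) = (M : ℤ) * (m * j) by push_cast; ring]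
    exact hM _
  tfae_have 1 → 2 := by
    intro h
    obtain ⟨M, hM1, hM⟩ := back h
    have hM' : φ (g ^ M) = 1 := by simpa using hM 1
    refine ⟨1, one_pos, fun k => M + k, fun _ => M, fun a b hab => by simpa using hab, ?_, ?_⟩
    · intro k
      exact ⟨hM1, (Nat.lt_two_pow_self).le.trans
        (Nat.pow_le_pow_right (by norm_num) (Nat.le_add_right M k))⟩
    · simp only [hM', Complex.one_re, sub_self, mul_zero]
      exact summable_zero
  tfae_have 1 → 3 := by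
    intro h
    obtain ⟨M, hM1, hM⟩ := back h
    have hM' : φ (g ^ M) = 1 := by simpa using hM 1
    refine ⟨1, 1, le_rfl, one_pos, ?_⟩
    filter_upwards [eventually_ge_atTop M] with N hN
    refine ⟨N, le_rfl, by rw [Real.rpow_one], M, hM1,
      (Nat.lt_two_pow_self).le.trans (Nat.pow_le_pow_right (by norm_num) hN), ?_⟩
    simp only [hM', Complex.one_re, sub_self]
    exact Real.rpow_nonneg (Nat.cast_nonneg _) _
  tfae_have 1 → 4 := by
    intro h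
    obtain ⟨M, hM1, hM⟩ := back h
    have hMR : (1 : ℝ) ≤ M := by exact_mod_cast hM1
    refine ⟨M, 1, hMR, one_pos, id, strictMono_id, fun i => ?_, fun ε₀ h0 h1 => ?_⟩
    · rw [Real.rpow_one]
      have e1 : (i : ℝ) ≤ 2 ^ (i : ℝ) := by
        rw [Real.rpow_natCast]
        exact_mod_cast (Nat.lt_two_pow_self (n := i)).le
      refine e1.trans (Real.rpow_le_rpow_of_exponent_le (by norm_num) ?_)
      have : (0 : ℝ) ≤ i := Nat.cast_nonneg _
      nlinarith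
    · refine ⟨ε₀, ?_, le_rfl, M, ?_, fun i => ⟨i % M, Nat.mod_lt _ (by omega)⟩, ?_⟩
      · conv_rhs => rw [← Real.rpow_one ε₀]
        exact Real.rpow_le_rpow_of_exponent_ge h0 h1 hMR
      · have : 1 ≤ ε₀ ^ (-(1 : ℝ)) :=
          Real.one_le_rpow_of_pos_of_le_one_of_nonpos h0 h1 (by norm_num)
        nlinarith
      · intro i k hki hik
        have h2 : i % M = k % M := by simpa using hik
        have h3 : i ≡ k [MOD M] := h2
        obtain ⟨j, hj⟩ := (Nat.modEq_iff_dvd' hki.le).1 h3.symm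
        simp only [id]
        rw [hj, hM]
        simp only [Complex.one_re]
        nlinarith [sq_nonneg ε₀]
  tfae_have 2 → 1 := fun h => key (Or.inl h)
  tfae_have 3 → 1 := fun h => key (Or.inr (Or.inl h))
  tfae_have 4 → 1 := fun h => key (Or.inr (Or.inr h))
  tfae_finish

end Pool.Agent.N317.TS
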