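import Mathlib
import Pool.Agent.W763.Tr.Meas

/-!
# Wiener's lemma for atomless measures on the circle
-/

set_option autoImplicit false

open MeasureTheory Filter Topology

namespace Pool.Agent.N317.TS

lemma norm_fourier_eq (n : ℤ) (x : UnitAddCircle) : ‖(fourier n x : ℂ)‖ = 1 := by
  rw [fourier_apply]; exact Circle.norm_coe _

lemma norm_geom {ζ : ℂ} (h1 : ‖ζ‖ = 1) (hne : ζ ≠ 1) (N : ℕ) :
    ‖∑ n ∈ Finset.range N, ζ ^ n‖ ≤ 2 / ‖ζ - 1‖ := by
  have h2 : ζ - 1 ≠ 0 := sub_ne_zero.2 hne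
  rw [geom_sum_eq hne, norm_div]
  apply div_le_div_of_nonneg_right _ (norm_nonneg _)
  refine (norm_sub_le _ _).trans ?_
  rw [norm_pow, h1, one_pow, norm_one]
  norm_num

/-- the mean of the values of the kernel -/
noncomputable def ker (N : ℕ) (z : UnitAddCircle × UnitAddCircle) : ℂ :=
  (1 / (N : ℂ)) * ∑ n ∈ Finset.range N,
    (fourier (n : ℤ) z.1 : ℂ) * (starRingEnd ℂ) (fourier (n : ℤ) z.2)

lemma ker_eq (N : ℕ) (z : UnitAddCircle × UnitAddCircle) : ker N z = (1 / (N : ℂ)) *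
    ∑ n ∈ Finset.range N, ((fourier 1 z.1 : ℂ) * (starRingEnd ℂ) (fourier 1 z.2)) ^ n := by
  rw [ker]
  congr 1
  refine Finset.sum_congr rfl fun n _ => ?_
  rw [Pool.Agent.W763.Tr.fourier_coe_pow, Pool.Agent.W763.Tr.fourier_coe_pow, map_pow, mul_pow]

lemma norm_ker_le (N : ℕ) (z : UnitAddCircle × UnitAddCircle) : ‖ker N z‖ ≤ 1 := by
  rw [ker, norm_mul]
  rcases Nat.eq_zero_or_pos N with rfl | hN
  · simp
  have h1 : ‖∑ n ∈ Finset.range N, (fourier (n : ℤ) z.1 : ℂ) *
      (starRingEnd ℂ) (fourier (n : ℤ) z.2)‖ ≤ N := by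
    refine (norm_sum_le _ _).trans ?_
    have : ∀ n ∈ Finset.range N, ‖(fourier (n : ℤ) z.1 : ℂ) *
      (starRingEnd ℂ) (fourier (n : ℤ) z.2)‖ = 1 := by
      intro n _
      rw [norm_mul, RCLike.norm_conj, norm_fourier_eq, norm_fourier_eq, mul_one]
    rw [Finset.sum_congr rfl this]
    simp
  have hN' : (0 : ℝ) < N := by exact_mod_cast hN
  rw [norm_div, norm_one, Complex.norm_natCast]
  calc 1 / (N : ℝ) * _ ≤ 1 / (N : ℝ) * N := by gcongr
    _ = 1 := by field_simp

lemma ker_tendsto {z : UnitAddCircle × UnitAddCircle} (hz : z.1 ≠ z.2) :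
    Tendsto (fun N => ker N z) atTop (𝓝 0) := by
  set ζ : ℂ := (fourier 1 z.1 : ℂ) * (starRingEnd ℂ) (fourier 1 z.2) with hζ
  have h1 : ‖ζ‖ = 1 := by
    rw [hζ, norm_mul, RCLike.norm_conj, norm_fourier_eq, norm_fourier_eq, mul_one]
  have hne : ζ ≠ 1 := by
    intro h
    apply hz
    have h2 : (fourier 1 z.2 : ℂ) * (starRingEnd ℂ) (fourier 1 z.2) = 1 := by
      rw [Complex.mul_conj, Complex.normSq_eq_norm_sq, norm_fourier_eq]; simp
    have h3 : (fourier 1 z.1 : ℂ) = fourier 1 z.2 := by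
      have h4 : (starRingEnd ℂ) (fourier 1 z.2 : ℂ) ≠ 0 := by
        intro h5
        rw [h5, mul_zero] at h2
        exact zero_ne_one h2
      apply mul_right_cancel₀ h4
      rw [h2]; exact h
    rw [fourier_one, fourier_one] at h3
    exact AddCircle.injective_toCircle one_ne_zero (Subtype.ext h3)
  rw [tendsto_zero_iff_norm_tendsto_zero]
  have hlim : Tendsto (fun N : ℕ => (2 / ‖ζ - 1‖) * (1 / (N : ℝ))) atTop (𝓝 0) := by
    have := (tendsto_one_div_atTop_nhds_zero_nat (𝕜 := ℝ)).const_mul (2 / ‖ζ - 1‖)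
    simpa using this
  refine squeeze_zero (fun _ => norm_nonneg _) (fun N => ?_) hlim
  rw [ker_eq, norm_mul, norm_div, norm_one, Complex.norm_natCast, mul_comm]
  exact mul_le_mul_of_nonneg_right (norm_geom h1 hne N) (by positivity)

/-- **Wiener's lemma** -/
theorem wiener (μ : Measure UnitAddCircle) [IsProbabilityMeasure μ]
    (hat : ∀ x : UnitAddCircle, μ {x} = 0) :
    Tendsto (fun N : ℕ => (1 / (N : ℝ)) * ∑ n ∈ Finset.range N,
      ‖∫ x, (fourier (n : ℤ) x : ℂ) ∂μ‖ ^ 2) atTop (𝓝 0) := by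
  have hdiag : ∀ᵐ z ∂(μ.prod μ), z.1 ≠ z.2 := by
    rw [ae_iff]
    have hm : MeasurableSet {z : UnitAddCircle × UnitAddCircle | ¬ z.1 ≠ z.2} := by
      have : {z : UnitAddCircle × UnitAddCircle | ¬ z.1 ≠ z.2} = Set.diagonal UnitAddCircle := by
        ext z; simp
      rw [this]
      exact measurableSet_diagonal
    rw [Measure.measure_prod_null hm]
    refine Filter.Eventually.of_forall fun x => ?_
    have : (Prod.mk x ⁻¹' {z : UnitAddCircle × UnitAddCircle | ¬ z.1 ≠ z.2}) = {x} := by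
      ext y
      simp only [Set.mem_preimage, Set.mem_ofPred_eq, Set.mem_singleton_iff, not_not]
      exact eq_comm
    change μ (Prod.mk x ⁻¹' {z : UnitAddCircle × UnitAddCircle | ¬ z.1 ≠ z.2}) = 0
    rw [this]
    exact hat x
  have hcont : ∀ N, Continuous (ker N) := by
    intro N
    unfold ker
    fun_prop
  have h1 : Tendsto (fun N => ∫ z, ker N z ∂(μ.prod μ)) atTop
      (𝓝 (∫ _z : UnitAddCircle × UnitAddCircle, (0 : ℂ) ∂(μ.prod μ))) := by
    refine tendsto_integral_of_dominated_convergence (fun _ => (1 : ℝ))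
      (fun N => (hcont N).aestronglyMeasurable) (integrable_const _)
      (fun N => Filter.Eventually.of_forall fun z => norm_ker_le N z) ?_
    filter_upwards [hdiag] with z hz
    exact ker_tendsto hz
  rw [integral_zero] at h1
  have h2 : ∀ N : ℕ, ∫ z, ker N z ∂(μ.prod μ) = (((1 / (N : ℝ)) * ∑ n ∈ Finset.range N,
      ‖∫ x, (fourier (n : ℤ) x : ℂ) ∂μ‖ ^ 2 : ℝ) : ℂ) := by
    intro N
    unfold ker
    rw [integral_const_mul, integral_finsetSum]
    · push_cast
      congr 1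
      refine Finset.sum_congr rfl fun n _ => ?_
      rw [integral_prod_mul (fun x : UnitAddCircle => (fourier (n : ℤ) x : ℂ))
        (fun x : UnitAddCircle => (starRingEnd ℂ) (fourier (n : ℤ) x)), integral_conj,
        Complex.mul_conj, Complex.normSq_eq_norm_sq]
      push_cast
      rfl
    · intro n _
      refine (Continuous.integrable_of_hasCompactSupport ?_ (HasCompactSupport.of_compactSpace _))
      fun_prop
  simp only [h2] at h1
  have h3 := (Complex.continuous_re.tendsto _).comp h1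
  simp only [Function.comp_def, Complex.ofReal_re, Complex.zero_re] at h3
  exact h3

end Pool.Agent.N317.TS
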