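import Mathlib
import Pool.Agent.TH461.FGK.TrCov
import Pool.Agent.TH463.UQ.Trace
import Pool.Agent.Results.MP_e27144_an.ManyLargeCoefficients
import Pool.Agent.N317.TS.Main
import Pool.Agent.N317.TS.Wiener

/-!
# Traces of `ℤ² ⋉ ℤ[1/6]`: the number of large values along the powers of one translation
-/

set_option autoImplicit false

open MeasureTheory Filter Topology
open scoped ComplexOrder

namespace Pool.Agent.N317.TS

open Pool.Agent.TH654.FC Pool.Agent.W763.Tr Pool.Agent.TH461.FGK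

/-- the number of the `1 ≤ n ≤ X` with `|v n| ≥ δ` -/
noncomputable def largeValues (v : ℕ → ℂ) (δ X : ℝ) : ℕ :=
  Nat.card {n : ℕ | 1 ≤ n ∧ (n : ℝ) ≤ X ∧ δ ≤ ‖v n‖}

def PolyLogMany (v : ℕ → ℂ) : Prop :=
  ∃ C : ℕ, ∀ δ : ℝ, 0 < δ → ∃ B : ℝ, ∀ X : ℝ, 2 ≤ X → (largeValues v δ X : ℝ) ≤ B * Real.log X ^ C

def DensityZero (v : ℕ → ℂ) : Prop :=
  ∀ δ : ℝ, 0 < δ → ∀ ε : ℝ, 0 < ε → ∃ X₀ : ℝ, ∀ X : ℝ, X₀ ≤ X → (largeValues v δ X : ℝ) ≤ ε * X

lemma large_finite (v : ℕ → ℂ) (δ X : ℝ) :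
    {n : ℕ | 1 ≤ n ∧ (n : ℝ) ≤ X ∧ δ ≤ ‖v n‖}.Finite := by
  refine (Set.finite_Iic ⌊X⌋₊).subset fun n hn => ?_
  rw [Set.mem_ofPred_eq] at hn
  exact Nat.le_floor hn.2.1

/-- Wiener's lemma and the number of large coefficients -/
lemma density_of_atomless (ν : Measure UnitAddCircle) [IsProbabilityMeasure ν]
    (hat : ∀ x, ν {x} = 0) {v : ℕ → ℂ} (hv : ∀ n : ℕ, ‖v n‖ = ‖∫ x, (fourier (n : ℤ) x : ℂ) ∂ν‖) :
    DensityZero v := by
  intro δ hδ ε hε
  have hw := wiener ν hat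
  have hpos : 0 < ε * δ ^ 2 / 2 := by positivity
  obtain ⟨N0, hN0⟩ := eventually_atTop.1 (hw.eventually (gt_mem_nhds hpos))
  refine ⟨max (N0 + 1) 1, fun X hX => ?_⟩
  have hX1 : 1 ≤ X := (le_max_right _ _).trans hX
  have hX0 : (N0 : ℝ) + 1 ≤ X := (le_max_left _ _).trans hX
  set N : ℕ := ⌊X⌋₊ + 1 with hN
  have hNX : (N : ℝ) ≤ 2 * X := by
    have := Nat.floor_le (show 0 ≤ X by linarith)
    rw [hN]; push_cast; linarith
  have hN0N : N0 ≤ N := by
    have h1 : (N0 : ℝ) ≤ X := by linarith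
    have h2 : N0 ≤ ⌊X⌋₊ := Nat.le_floor h1
    omega
  have hNpos : (0 : ℝ) < N := by
    rw [hN]; positivity
  have h1 := hN0 N hN0N
  rw [one_div, inv_mul_lt_iff₀ hNpos] at h1
  set S : Finset ℕ := (large_finite v δ X).toFinset with hS
  have hcard : largeValues v δ X = S.card := by
    rw [largeValues, hS, Nat.card_coe_set_eq, Set.ncard_eq_toFinset_card _ (large_finite v δ X)]
  have hsub : S ⊆ Finset.range N := by
    intro n hn
    rw [hS, Set.Finite.mem_toFinset] at hn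
    rw [Finset.mem_range, hN]
    have := Nat.le_floor hn.2.1
    omega
  have h2 : (S.card : ℝ) * δ ^ 2 ≤ ∑ n ∈ Finset.range N, ‖∫ x, (fourier (n : ℤ) x : ℂ) ∂ν‖ ^ 2 := by
    refine le_trans ?_ (Finset.sum_le_sum_of_subset_of_nonneg hsub fun _ _ _ => by positivity)
    rw [← nsmul_eq_mul]
    refine Finset.card_nsmul_le_sum _ _ _ fun n hn => ?_
    rw [hS, Set.Finite.mem_toFinset] at hn
    have h3 : δ ≤ ‖∫ x, (fourier (n : ℤ) x : ℂ) ∂ν‖ := by
      rw [← hv]; exact hn.2.2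
    exact pow_le_pow_left₀ hδ.le h3 2
  rw [hcard]
  have h4 : (S.card : ℝ) * δ ^ 2 ≤ (ε * X) * δ ^ 2 := by
    calc (S.card : ℝ) * δ ^ 2 ≤ N * (ε * δ ^ 2 / 2) := h2.trans h1.le
      _ ≤ (2 * X) * (ε * δ ^ 2 / 2) := mul_le_mul_of_nonneg_right hNX hpos.le
      _ = (ε * X) * δ ^ 2 := by ring
  exact le_of_mul_le_mul_right h4 (by positivity)

section

variable {G : Subgroup (Equiv.Perm ℚ)} {τ : ℤ → G} {φ : G → ℂ} {S6 : G} {μ : Measure UnitAddCircle}

lemma norm_even (μ : Measure UnitAddCircle) (m : ℤ) :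
    ‖∫ x, (fourier (-m) x : ℂ) ∂μ‖ = ‖∫ x, (fourier m x : ℂ) ∂μ‖ := by
  have e : (∫ x, (fourier (-m) x : ℂ) ∂μ) = (starRingEnd ℂ) (∫ x, (fourier m x : ℂ) ∂μ) := by
    rw [← integral_conj]
    congr 1
    ext x
    rw [fourier_neg]
  rw [e, RCLike.norm_conj]

/-- the measure of one translation -/
lemma image_of (D : Data G τ φ S6 μ) {g : G} {r : ℚ} (hg : ∀ x, (g : Equiv.Perm ℚ) x = x + r)
    (hr0 : r ≠ 0) : ∃ a : ℕ, 1 ≤ a ∧
      (∀ n : ℤ, ∫ x, (fourier n x : ℂ) ∂(μ.map (fun x : UnitAddCircle => a • x)) = φ (τ (a * n))) ∧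
      ∀ n : ℕ, ‖φ (g ^ n)‖ =
        ‖∫ x, (fourier (n : ℤ) x : ℂ) ∂(μ.map (fun x : UnitAddCircle => a • x))‖ := by
  obtain ⟨m, hm0, hm⟩ := pow_ne D hg hr0
  have hval : ∀ n : ℤ, ∫ x, (fourier n x : ℂ) ∂(μ.map (fun x : UnitAddCircle => m.natAbs • x)) =
      φ (τ (m.natAbs * n)) := by
    intro n
    rw [integral_map_nsmul, ← D.hμ, mul_comm]
  refine ⟨m.natAbs, by omega, hval, fun n => ?_⟩
  rw [hval, hm]
  rcases Int.natAbs_eq m with h | h
  · conv_lhs => rw [h]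
  · conv_lhs => rw [h]
    rw [← D.hμ, ← D.hμ, neg_mul, norm_even]

lemma pow_ne_one {g : G} {r : ℚ} (hg : ∀ x, (g : Equiv.Perm ℚ) x = x + r) (hr0 : r ≠ 0) {n : ℕ}
    (hn : 1 ≤ n) : g ^ n ≠ 1 := by
  have hpow : ∀ n : ℕ, ∀ x, ((g ^ n : G) : Equiv.Perm ℚ) x = x + n * r := by
    intro n
    induction n with
    | zero => intro x; simp
    | succ n ih =>
      intro x
      rw [pow_succ, Subgroup.coe_mul, Equiv.Perm.mul_apply, hg, ih]
      push_cast; ring
  intro h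
  have h1 := hpow n 0
  rw [h] at h1
  simp only [Subgroup.coe_one, Equiv.Perm.coe_one, id_eq, zero_add] at h1
  have h2 : (n : ℚ) * r ≠ 0 := mul_ne_zero (by exact_mod_cast (by omega : n ≠ 0)) hr0
  exact h2 h1.symm

end

abbrev Tr (G : Subgroup (Equiv.Perm ℚ)) : Set (G → ℂ) :=
  {ψ : G → ℂ | ψ 1 = 1 ∧ (∀ g h : G, ψ (h * g * h⁻¹) = ψ g) ∧
      ∀ (s : Finset G) (c : G → ℂ), 0 ≤ ∑ i ∈ s, ∑ j ∈ s, star (c j) * c i * ψ (j⁻¹ * i)}

abbrev Cfd {G : Subgroup (Equiv.Perm ℚ)} (φ : G → ℂ) : Prop :=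
  FiniteDimensional ℂ (Submodule.span ℂ {F : G → ℂ | ∃ n : G,
        (∃ r : ℚ, ∀ x : ℚ, (n : Equiv.Perm ℚ) x = x + r) ∧ F = fun x => φ (n * x)})

variable (s2 s3 t : Equiv.Perm ℚ) (hs2 : ∀ x : ℚ, s2 x = 2 * x) (hs3 : ∀ x : ℚ, s3 x = 3 * x)
    (ht : ∀ x : ℚ, t x = x + 1) (G : Subgroup (Equiv.Perm ℚ))
    (hG : G = Subgroup.closure {s2, s3, t})

include hs2 hs3 ht hG in
/-- the lower bound -/
theorem lower (k : ℕ) (hk : 1 ≤ k) (α θ : ℝ) (hα : 0 < α) (h0 : 0 < θ) (h1 : θ < 1) :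
    ∃ c X₀ : ℝ, 0 < c ∧ 1 < X₀ ∧ ∀ φ ∈ Tr G, ∀ g : G, ∀ r : ℚ, r ≠ 0 →
      (∀ x, (g : Equiv.Perm ℚ) x = x + r) → α ≤ ‖φ g‖ → ∀ X : ℝ, X₀ ≤ X →
        c * Real.log X ^ (4 * k) ≤ largeValues (fun n => φ (g ^ n)) (θ * α ^ (2 * k)) X := by
  obtain ⟨c, X₀, hc, hX₀, H⟩ :=
    Pool.Agent.Results.MP_e27144_an.ManyLargeCoefficients.main k hk α θ hα h0 h1
  refine ⟨c, X₀, hc, hX₀, ?_⟩
  rintro φ ⟨hφ1, hcl, hpd⟩ g r hr0 hg hαg X hX
  obtain ⟨τ, S6, μ, D⟩ := data_of hs2 hs3 ht hG hφ1 hcl hpd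
  have := D.prob
  obtain ⟨a, ha, -, hn⟩ := image_of D hg hr0
  have hmeas : Measurable (fun x : UnitAddCircle => a • x) := by fun_prop
  have h2 := H (μ.map (fun x : UnitAddCircle => a • x))
    (Measure.isProbabilityMeasure_map hmeas.aemeasurable)
    (Pool.Agent.H261R2.FU.mp_nsmul D.mp2 a) (Pool.Agent.H261R2.FU.mp_nsmul D.mp3 a) 1 one_ne_zero
    (by have := hn 1; rw [pow_one] at this; rw [this] at hαg; exact_mod_cast hαg) X hX
  simp only [Int.cast_one, abs_one, one_mul] at h2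
  simp only [largeValues, hn]
  exact h2

include hs2 hs3 ht hG in
/-- the regular trace -/
theorem regular_iff (φ : G → ℂ) (hφ : φ ∈ Tr G) (g : G) (r : ℚ) (hr0 : r ≠ 0)
    (hg : ∀ x, (g : Equiv.Perm ℚ) x = x + r) :
    (∀ h : G, h ≠ 1 → φ h = 0) ↔ PolyLogMany (fun n => φ (g ^ n)) := by
  obtain ⟨hφ1, hcl, hpd⟩ := hφ
  obtain ⟨τ, S6, μ, D⟩ := data_of hs2 hs3 ht hG hφ1 hcl hpd
  have := D.prob
  constructor
  · intro h
    refine ⟨0, fun δ hδ => ⟨0, fun X _ => ?_⟩⟩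
    have : {n : ℕ | 1 ≤ n ∧ (n : ℝ) ≤ X ∧ δ ≤ ‖φ (g ^ n)‖} = ∅ := by
      ext n
      simp only [Set.mem_ofPred_eq, Set.mem_empty_iff_false, iff_false]
      rintro ⟨hn, _, hd⟩
      rw [h _ (pow_ne_one hg hr0 hn), norm_zero] at hd
      linarith
    rw [largeValues, this]
    simp
  · rintro ⟨C, hC⟩
    obtain ⟨a, ha, hval, hn⟩ := image_of D hg hr0
    have hmeas : Measurable (fun x : UnitAddCircle => a • x) := by fun_prop
    have hvol := ((Pool.Agent.Results.MP_e27144_an.ManyLargeCoefficients.result).2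
      (μ.map (fun x : UnitAddCircle => a • x))
      (Measure.isProbabilityMeasure_map hmeas.aemeasurable)
      (Pool.Agent.H261R2.FU.mp_nsmul D.mp2 a) (Pool.Agent.H261R2.FU.mp_nsmul D.mp3 a)).2
      ⟨C, fun δ hδ => by
        obtain ⟨B, hB⟩ := hC δ hδ
        refine ⟨B, fun X hX => ?_⟩
        have := hB X hX
        simp only [largeValues, hn] at this
        exact this⟩
    have hz : ∀ m : ℤ, m ≠ 0 → φ (τ (a * m)) = 0 := by
      intro m hm
      rw [← hval, hvol]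
      exact Pool.Agent.Results.MP_e27144_an.ManyLargeCoefficients.coeff_volume hm
    have hz2 : ∀ n : ℤ, n ≠ 0 → φ (τ n) = 0 := fun n hn =>
      all_zero D.hτ D.h1 D.hpd D.h2 ha hz n hn
    intro h hh
    exact eq_regular D.hτ D.h1 D.hcl D.hpd S6 D.hS6 D.hform hz2 h hh

include hs2 hs3 ht hG in
/-- conditional finite dimension -/
theorem cfd_iff (φ : G → ℂ) (hφ : φ ∈ Set.extremePoints ℝ (Tr G)) (g : G) (r : ℚ) (hr0 : r ≠ 0)
    (hg : ∀ x, (g : Equiv.Perm ℚ) x = x + r) :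
    Cfd φ ↔ ¬ DensityZero (fun n => φ (g ^ n)) := by
  obtain ⟨hφ1, hcl, hpd⟩ := hφ.1
  obtain ⟨τ, S6, μ, D⟩ := data_of hs2 hs3 ht hG hφ1 hcl hpd
  have := D.prob
  constructor
  · intro h hd
    obtain ⟨M, hM1, hM⟩ := exists_kernel D.hτ D.hμ D.h2 h
    obtain ⟨m, hm⟩ := D.pow hg
    have hone : ∀ j : ℕ, φ (g ^ (M * j)) = 1 := by
      intro j
      rw [hm, show m * ((M * j : ℕ) : ℤ) = (M : ℤ) * (m * j) by push_cast; ring]
      exact hM _
    have hMR : (1 : ℝ) ≤ M := by exact_mod_cast hM1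
    obtain ⟨X₀, hX₀⟩ := hd 1 one_pos (1 / (2 * M)) (by positivity)
    obtain ⟨J, hJ1, hJ2⟩ : ∃ J : ℕ, 1 ≤ J ∧ X₀ ≤ (M : ℝ) * J := by
      refine ⟨⌈max X₀ 1⌉₊, ?_, ?_⟩
      · exact Nat.one_le_ceil_iff.2 (lt_of_lt_of_le one_pos (le_max_right _ _))
      · have h1 := Nat.le_ceil (max X₀ 1)
        have h2 : X₀ ≤ max X₀ 1 := le_max_left _ _
        have h3 : (0 : ℝ) ≤ (⌈max X₀ 1⌉₊ : ℝ) := Nat.cast_nonneg _
        nlinarith
    have h5 := hX₀ ((M : ℝ) * J) hJ2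
    have h6 : J ≤ largeValues (fun n => φ (g ^ n)) 1 ((M : ℝ) * J) := by
      rw [largeValues, Nat.card_coe_set_eq]
      set I : Finset ℕ := (Finset.Icc 1 J).image (fun j => M * j) with hI
      have hIc : I.card = J := by
        rw [hI, Finset.card_image_of_injective _ (fun a b h => by
          exact Nat.eq_of_mul_eq_mul_left (by omega) h), Nat.card_Icc]
        omega
      refine le_trans (le_of_eq (hIc.symm.trans (Set.ncard_coe_finset I).symm)) ?_
      refine Set.ncard_le_ncard ?_ (large_finite _ _ _)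
      intro n hn
      rw [Finset.mem_coe, hI, Finset.mem_image] at hn
      obtain ⟨j, hj, rfl⟩ := hn
      rw [Finset.mem_Icc] at hj
      refine ⟨?_, ?_, ?_⟩
      · nlinarith [hj.1]
      · push_cast
        have : (j : ℝ) ≤ J := by exact_mod_cast hj.2
        nlinarith
      · simp only [hone, norm_one, le_refl]
    have h7 : (J : ℝ) ≤ 1 / (2 * M) * (M * J) := by
      refine le_trans ?_ h5
      exact_mod_cast h6
    have h8 : 1 / (2 * (M : ℝ)) * (M * J) = J / 2 := by field_simp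
    rw [h8] at h7
    have h9 : (1 : ℝ) ≤ J := by exact_mod_cast hJ1
    linarith
  · intro h
    by_contra hc
    rcases Pool.Agent.TH463.UQ.finite_or_atomless D hφ with h1 | hat
    · exact hc h1
    · apply h
      obtain ⟨a, ha, -, hn⟩ := image_of D hg hr0
      have hmeas : Measurable (fun x : UnitAddCircle => a • x) := by fun_prop
      have hp : IsProbabilityMeasure (μ.map (fun x : UnitAddCircle => a • x)) :=
        Measure.isProbabilityMeasure_map hmeas.aemeasurable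
      refine density_of_atomless (μ.map (fun x : UnitAddCircle => a • x)) ?_ hn
      intro x
      rw [Measure.map_apply hmeas (measurableSet_singleton _)]
      have hfin : ((fun x : UnitAddCircle => a • x) ⁻¹' {x}).Countable := by
        have hcov : ((fun x : UnitAddCircle => a • x) ⁻¹' {x}).Finite := by
          by_cases hne : ((fun x : UnitAddCircle => a • x) ⁻¹' {x}).Nonempty
          · obtain ⟨y, hy⟩ := hne
            have htor : {z : UnitAddCircle | a • z = 0}.Finite := by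
              have := AddCircle.finite_torsion (p := (1 : ℝ)) (n := a) (by omega)
              exact this
            refine (htor.image (fun z => y + z)).subset ?_
            intro w hw
            refine ⟨w - y, ?_, by abel⟩
            simp only [Set.mem_preimage, Set.mem_singleton_iff] at hw hy
            simp only [Set.mem_ofPred_eq, smul_sub, hw, hy, sub_self]
          · rw [Set.not_nonempty_iff_eq_empty] at hne
            rw [hne]
            exact Set.finite_empty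
        exact hcov.countable
      have : ((fun x : UnitAddCircle => a • x) ⁻¹' {x}) =
          ⋃ y ∈ ((fun x : UnitAddCircle => a • x) ⁻¹' {x}), {y} :=
        (Set.biUnion_of_singleton _).symm
      rw [this]
      exact (measure_biUnion_null_iff hfin).mpr fun y _ => hat y

end Pool.Agent.N317.TS
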